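import Mathlib
set_option autoImplicit false

/-!
Continuous functions that take few values at the points `cos (2 π a / p)`, for all large primes
`p`, are constant.
-/

namespace Pool.Agent.R387.RS

open Filter Set

open scoped Topology

/-- The number `cos (2 π a / p)`. -/
noncomputable def cs (p a : ℕ) : ℝ := Real.cos (2 * Real.pi * a / p)

theorem exists_cs_mem {s : ℝ} (hs : |s| < 1) {W : Set ℝ} (hW : W ∈ 𝓝 s) :
    ∃ p₀ : ℕ, ∀ p : ℕ, p₀ ≤ p → ∃ a : ℕ, 0 < a ∧ a < p ∧ cs p a ∈ W := by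
  have hpi := Real.pi_pos
  obtain ⟨hs1, hs2⟩ := abs_lt.1 hs
  set θ := Real.arccos s with hθ
  have hcos : Real.cos θ = s := Real.cos_arccos hs1.le hs2.le
  have hθ0 : 0 < θ := Real.arccos_pos.2 hs2
  have hθπ : θ < Real.pi := by
    rcases (Real.arccos_le_pi s).lt_or_eq with h | h
    · exact h
    · rw [← hθ] at h
      rw [h, Real.cos_pi] at hcos
      linarith
  have h1 : Real.cos ⁻¹' W ∈ 𝓝 θ := by
    refine Real.continuous_cos.continuousAt.preimage_mem_nhds ?_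
    rwa [hcos]
  obtain ⟨ε, hε, hball⟩ := Metric.mem_nhds_iff.1 h1
  obtain ⟨p₀, hp₀⟩ := exists_nat_gt (max (2 * Real.pi / ε) (2 * Real.pi / θ))
  refine ⟨p₀, fun p hp => ?_⟩
  have hpp : max (2 * Real.pi / ε) (2 * Real.pi / θ) < p :=
    hp₀.trans_le (by exact_mod_cast hp)
  have hpε : 2 * Real.pi / ε < p := (le_max_left _ _).trans_lt hpp
  have hpθ : 2 * Real.pi / θ < p := (le_max_right _ _).trans_lt hpp
  have hp0 : (0 : ℝ) < p := (div_pos (by positivity) hε).trans hpε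
  have hle : ((⌊p * θ / (2 * Real.pi)⌋₊ : ℕ) : ℝ) ≤ p * θ / (2 * Real.pi) :=
    Nat.floor_le (by positivity)
  have hgt : p * θ / (2 * Real.pi) < (⌊p * θ / (2 * Real.pi)⌋₊ : ℕ) + 1 := Nat.lt_floor_add_one _
  set a := ⌊p * θ / (2 * Real.pi)⌋₊ with ha
  refine ⟨a, ?_, ?_, ?_⟩
  · rw [ha, Nat.floor_pos, le_div_iff₀ (by positivity), one_mul]
    rw [div_lt_iff₀ hθ0] at hpθ
    exact hpθ.le
  · have h2 : (a : ℝ) < p := by
      refine hle.trans_lt ?_
      rw [div_lt_iff₀ (by positivity)]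
      nlinarith
    exact_mod_cast h2
  · show 2 * Real.pi * a / p ∈ Real.cos ⁻¹' W
    refine hball ?_
    rw [Metric.mem_ball, Real.dist_eq, abs_lt]
    have h3 : 2 * Real.pi * a / p ≤ θ := by
      rw [div_le_iff₀ hp0]
      rw [le_div_iff₀ (by positivity)] at hle
      linarith
    have h4 : θ - 2 * Real.pi / p < 2 * Real.pi * a / p := by
      rw [div_lt_iff₀ (by positivity)] at hgt
      rw [lt_div_iff₀ hp0, sub_mul, div_mul_cancel₀ _ hp0.ne']
      linarith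
    have h5 : 2 * Real.pi / p < ε := by
      rw [div_lt_iff₀ hp0]
      rw [div_lt_iff₀ hε] at hpε
      linarith
    constructor <;> linarith

/-- A continuous function with few values at the points `cos (2 π a / p)` is constant. -/
theorem const_of_few {f : ℝ → ℝ} {S : Set ℝ} (hS : IsOpen S) (hS1 : ∀ s ∈ S, |s| < 1)
    (hSc : IsPreconnected S) (hf : ContinuousOn f S) {d p₀ : ℕ}
    (h : ∀ p : ℕ, p.Prime → p₀ ≤ p → ∃ V : Finset ℝ, V.card ≤ d ∧
      ∀ a : ℕ, 0 < a → a < p → cs p a ∈ S → f (cs p a) ∈ V) :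
    ∀ s ∈ S, ∀ t ∈ S, f s = f t := by
  by_contra hcon
  push Not at hcon
  obtain ⟨s, hs, t, ht, hst⟩ := hcon
  have hpre : IsPreconnected (f '' S) := hSc.image f hf
  have hinf : (f '' S).Infinite := by
    rcases lt_or_gt_of_ne hst with h1 | h1
    · exact (Ioo_infinite h1).mono fun v hv =>
        hpre.ordConnected.out (mem_image_of_mem f hs) (mem_image_of_mem f ht) ⟨hv.1.le, hv.2.le⟩
    · exact (Ioo_infinite h1).mono fun v hv =>
        hpre.ordConnected.out (mem_image_of_mem f ht) (mem_image_of_mem f hs) ⟨hv.1.le, hv.2.le⟩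
  obtain ⟨T, hT, hTc⟩ := hinf.exists_subset_card_eq (d + 1)
  obtain ⟨U, hU, hdis⟩ := (T.finite_toSet).t2_separation
  have h2 : ∀ v : T, ∃ p₁ : ℕ, ∀ p : ℕ, p₁ ≤ p → ∃ a : ℕ, 0 < a ∧ a < p ∧ cs p a ∈ S ∧
      f (cs p a) ∈ U v := by
    intro v
    obtain ⟨u, hu, huv⟩ := hT v.2
    have h3 : S ∩ f ⁻¹' (U v) ∈ 𝓝 u := by
      refine inter_mem (hS.mem_nhds hu) ?_
      refine (hf.continuousAt (hS.mem_nhds hu)).preimage_mem_nhds ?_
      rw [huv]
      exact (hU v).2.mem_nhds (hU v).1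
    obtain ⟨p₁, hp₁⟩ := exists_cs_mem (hS1 u hu) h3
    refine ⟨p₁, fun p hp => ?_⟩
    obtain ⟨a, h4, h5, h6, h7⟩ := hp₁ p hp
    exact ⟨a, h4, h5, h6, h7⟩
  choose p₁ hp₁ using h2
  obtain ⟨p, hpge, hp⟩ := Nat.exists_infinite_primes (max p₀ (Finset.univ.sup p₁))
  obtain ⟨V, hV, hVf⟩ := h p hp ((le_max_left _ _).trans hpge)
  have h3 : ∀ v : T, p₁ v ≤ p := fun v =>
    (Finset.le_sup (f := p₁) (Finset.mem_univ v)).trans ((le_max_right _ _).trans hpge)
  choose a ha using fun v : T => hp₁ v p (h3 v)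
  have h4 : Function.Injective fun v : T => (⟨f (cs p (a v)),
      hVf _ (ha v).1 (ha v).2.1 (ha v).2.2.1⟩ : V) := by
    intro v w hvw
    have h5 : f (cs p (a v)) = f (cs p (a w)) := congrArg Subtype.val hvw
    by_contra hne
    have h6 := hdis v.2 w.2 (fun h7 => hne (Subtype.ext h7))
    refine Set.disjoint_left.1 h6 (ha v).2.2.2 ?_
    rw [h5]
    exact (ha w).2.2.2
  have h5 := Fintype.card_le_of_injective _ h4
  rw [Fintype.card_coe, Fintype.card_coe, hTc] at h5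
  omega

end Pool.Agent.R387.RS
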