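import Pool.Agent.Y94.R.Real
import Pool.Agent.R387.RS.Few
set_option autoImplicit false

/-!
A combination of the regulator integrals that takes few values at the special points of large prime
orders has a real derivative along `P ⁻¹ [-1, 1]`.
-/

namespace Pool.Agent.R387.RS

open Polynomial MeasureTheory Set Filter

open Pool.Agent.Y94.R

open scoped Topology

section Comb

variable {D P Q r : ℂ[X]} {m : ℕ} (γ : Fin m → Lp D) (c : Fin m → ℝ)

/-- The combination of the regulator integrals takes few values at the special points of large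
prime orders. -/
def FewValues {D : ℂ[X]} {m : ℕ} (γ : Fin m → Lp D) (P Q : ℂ[X]) (c : Fin m → ℝ) : Prop :=
  ∃ d p₀ : ℕ, ∀ p : ℕ, p.Prime → p₀ ≤ p → ∃ V : Finset ℝ, V.card ≤ d ∧
    ∀ a : ℕ, 0 < a → a < p → ∀ b : ℂ, (∀ l, (γ l).Off b) → P.eval b = (cs p a : ℝ) →
      ∑ l, c l * (γ l).rho P Q b ∈ V

theorem real_of_few (h : Pell D P Q r) (hfew : FewValues γ P Q c) {b₀ : ℂ} (hoff : ∀ l, (γ l).Off b₀) {t₀ : ℝ} (ht₀ : |t₀| < 1) (hb₀ : P.eval b₀ = t₀)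
    (hr : r.eval b₀ ≠ 0) :
    (((derivative P).eval b₀)⁻¹ * Jc γ c r b₀).im = 0 ∧
    ∃ θ : ℝ, (nF (Ic γ c) (NN D)).eval b₀ * r.eval b₀ ^ 2 +
      1 / 2 * (derivative D).eval b₀ * (RR (Ic γ c) r).eval b₀ * r.eval b₀ +
      D.eval b₀ * ((derivative (RR (Ic γ c) r)).eval b₀ * r.eval b₀ -
        (RR (Ic γ c) r).eval b₀ * (derivative r).eval b₀) = θ * r.eval b₀ ^ 3 := by
  set R := RR (Ic γ c) r with hR
  have hpe := congrArg (Polynomial.eval b₀) h.eq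
  have hpr := congrArg (Polynomial.eval b₀) h.mul_r
  have hpd := congrArg (Polynomial.eval b₀) h.der
  simp only [eval_add, eval_sub, eval_mul, eval_pow, eval_C, eval_one] at hpe hpr hpd
  have hQ : Q.eval b₀ ≠ 0 := by
    intro h0
    rw [h0, hb₀] at hpe
    have h1 : (t₀ : ℂ) ^ 2 = 1 := by linear_combination hpe
    have h2 : t₀ ^ 2 = 1 := by exact_mod_cast h1
    have h3 : t₀ ^ 2 < 1 := by rwa [sq_lt_one_iff_abs_lt_one]
    exact h3.ne h2
  have hP' : (derivative P).eval b₀ ≠ 0 := by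
    rw [hpd]
    exact mul_ne_zero hr hQ
  obtain ⟨ψ, hψ0, hψ⟩ := exists_inverse P hP'
  rw [hb₀] at hψ0 hψ
  have hψc : ContinuousAt ψ (t₀ : ℂ) := (hψ.self_of_nhds.2).continuousAt
  have hnear : ∀ᶠ b in 𝓝 b₀, (∀ l, (γ l).Off b) ∧ r.eval b ≠ 0 ∧ Q.eval b ≠ 0 := by
    have h1 : ∀ᶠ b in 𝓝 b₀, ∀ l, (γ l).Off b := (isOpen_off_all γ).mem_nhds hoff
    refine h1.and ?_
    exact (r.continuous.continuousAt.eventually_ne hr).and
      (Q.continuous.continuousAt.eventually_ne hQ)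
  have hall : ∀ᶠ t in 𝓝 (t₀ : ℂ), ((∀ l, (γ l).Off (ψ t)) ∧ r.eval (ψ t) ≠ 0 ∧
      Q.eval (ψ t) ≠ 0) ∧ P.eval (ψ t) = t ∧
      HasDerivAt ψ ((derivative P).eval (ψ t))⁻¹ t := by
    refine Filter.Eventually.and ?_ hψ
    have h1 := hψc.tendsto
    rw [hψ0] at h1
    exact h1.eventually hnear
  obtain ⟨ε, hε, hball⟩ := Metric.eventually_nhds_iff_ball.1 hall
  have hcast : ∀ t : ℝ, t ∈ Metric.ball t₀ ε → (t : ℂ) ∈ Metric.ball (t₀ : ℂ) ε := by
    intro t ht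
    rw [Metric.mem_ball, Complex.dist_eq, ← Complex.ofReal_sub, Complex.norm_real]
    exact ht
  -- the derivative along the real line
  have hder : ∀ t ∈ Metric.ball t₀ ε, HasDerivAt (fun t : ℝ => ∑ l, c l * (γ l).rho P Q (ψ t))
      (((derivative P).eval (ψ t))⁻¹ * Jc γ c r (ψ t)).im t := by
    intro t ht
    obtain ⟨δ, hδ, hsub⟩ := Metric.isOpen_iff.1 Metric.isOpen_ball t ht
    have hsub' : Metric.closedBall t (δ / 2) ⊆ Metric.ball t₀ ε :=
      (Metric.closedBall_subset_ball (half_lt_self hδ)).trans hsub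
    have h1 : ∀ l ∈ Finset.univ, HasDerivAt (fun t : ℝ => c l * (γ l).rho P Q (ψ t))
        (c l * (((derivative P).eval (ψ t))⁻¹ * (γ l).J r (ψ t)).im) t := by
      intro l _
      refine HasDerivAt.const_mul _ ((γ l).hasDerivAt_rho h (half_pos hδ)
        (β := fun t : ℝ => ψ t) (β' := fun t : ℝ => ((derivative P).eval (ψ t))⁻¹)
        (fun s hs => ?_) (fun s hs => ?_) fun s hs => ?_)
      · exact (hball s (hcast s (hsub' hs))).2.2.comp_ofReal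
      · have h2 := hball s (hcast s (hsub' hs))
        have h3 : ContinuousAt (fun t : ℝ => ψ t) s := (h2.2.2.comp_ofReal).continuousAt
        have h4 : ContinuousAt (fun t : ℝ => (derivative P).eval (ψ t)) s :=
          ((derivative P).continuous.continuousAt).comp h3
        refine (h4.inv₀ ?_).continuousWithinAt
        have h5 := congrArg (Polynomial.eval (ψ s)) h.der
        rw [h5, eval_mul]
        exact mul_ne_zero h2.1.2.1 h2.1.2.2
      · exact (hball s (hcast s (hsub' hs))).1.1 l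
    have h2 := HasDerivAt.fun_sum h1
    refine h2.congr_deriv ?_
    unfold Jc
    rw [Finset.mul_sum, Complex.im_sum]
    refine Finset.sum_congr rfl fun l _ => ?_
    rw [show ((derivative P).eval (ψ t))⁻¹ * ((c l : ℂ) * (γ l).J r (ψ t)) =
      (c l : ℂ) * (((derivative P).eval (ψ t))⁻¹ * (γ l).J r (ψ t)) by ring,
      Complex.im_ofReal_mul]
  -- the combination is constant
  obtain ⟨d, p₀, hfew⟩ := hfew
  have hSo : IsOpen (Metric.ball t₀ ε ∩ {t : ℝ | |t| < 1}) :=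
    Metric.isOpen_ball.inter (isOpen_lt continuous_abs continuous_const)
  have hSc : IsPreconnected (Metric.ball t₀ ε ∩ {t : ℝ | |t| < 1}) := by
    have h1 : {t : ℝ | |t| < 1} = Metric.ball (0 : ℝ) 1 := by
      ext t
      simp
    rw [h1, Real.ball_eq_Ioo, Real.ball_eq_Ioo, Ioo_inter_Ioo]
    exact isPreconnected_Ioo
  have hconstS := const_of_few (f := fun t : ℝ => ∑ l, c l * (γ l).rho P Q (ψ t)) hSo
    (fun s hs => hs.2) hSc (fun t ht => (hder t ht.1).continuousAt.continuousWithinAt)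
    (d := d) (p₀ := p₀) (fun p hp hle => by
      obtain ⟨V, hV, hVm⟩ := hfew p hp hle
      refine ⟨V, hV, fun a ha0 hap hs => ?_⟩
      have h2 := hball _ (hcast _ hs.1)
      exact hVm a ha0 hap _ h2.1.1 h2.2.1)
  obtain ⟨κ, hκ⟩ : ∃ κ : ℝ, κ = ∑ l, c l * (γ l).rho P Q (ψ (t₀ : ℂ)) := ⟨_, rfl⟩
  have hK : ∀ t ∈ Metric.ball t₀ ε, |t| < 1 → ∑ l, c l * (γ l).rho P Q (ψ t) = κ := by
    intro t ht ht1
    rw [hκ]
    exact hconstS t ⟨ht, ht1⟩ t₀ ⟨Metric.mem_ball_self hε, ht₀⟩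
  have hreal : ∀ᶠ t : ℝ in 𝓝 t₀,
      (((derivative P).eval (ψ (t : ℂ)))⁻¹ * Jc γ c r (ψ (t : ℂ))).im = 0 := by
    have h1 : ∀ᶠ t in 𝓝 t₀, t ∈ Metric.ball t₀ ε := Metric.ball_mem_nhds t₀ hε
    have h2 : ∀ᶠ t in 𝓝 t₀, |t| < 1 := continuous_abs.continuousAt.eventually_lt_const ht₀
    have h3 := (h1.and h2).eventually_nhds
    filter_upwards [h3] with t ht
    have h4 : HasDerivAt (fun t : ℝ => ∑ l, c l * (γ l).rho P Q (ψ t)) 0 t :=
      (hasDerivAt_const t κ).congr_of_eventuallyEq (ht.mono fun s hs => hK s hs.1 hs.2)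
    exact (hder t ht.self_of_nhds.1).unique h4
  -- the function `k`
  obtain ⟨k, hk⟩ : ∃ k : ℂ → ℂ, k = fun b => (J0c γ c b + R.eval b / r.eval b) / Q.eval b :=
    ⟨_, rfl⟩
  have hk1 : ∀ b : ℂ, (∀ l, (γ l).Off b) → r.eval b ≠ 0 → Q.eval b ≠ 0 →
      ((derivative P).eval b)⁻¹ * Jc γ c r b = k b := by
    intro b h1 h2 h3
    have h4 := congrArg (Polynomial.eval b) h.der
    rw [eval_mul] at h4
    rw [h4, Jc_eq γ c r h1, hk, ← hR]
    field_simp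
  set k' : ℂ := ((J1c γ c b₀ + ((derivative R).eval b₀ * r.eval b₀ -
    R.eval b₀ * (derivative r).eval b₀) / r.eval b₀ ^ 2) * Q.eval b₀ -
      (J0c γ c b₀ + R.eval b₀ / r.eval b₀) * (derivative Q).eval b₀) / Q.eval b₀ ^ 2 with hk'
  have hk2 : HasDerivAt k k' b₀ := by
    rw [hk]
    exact ((hasDerivAt_J0c γ c hoff).add ((R.hasDerivAt b₀).div (r.hasDerivAt b₀) hr)).div
      (Q.hasDerivAt b₀) hQ
  have hψd : HasDerivAt ψ (r.eval b₀ * Q.eval b₀)⁻¹ (t₀ : ℂ) := by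
    have h1 := hψ.self_of_nhds.2
    rw [hψ0, hpd] at h1
    exact h1
  have hk3 : HasDerivAt (fun t : ℝ => k (ψ (t : ℂ))) (k' * (r.eval b₀ * Q.eval b₀)⁻¹) t₀ := by
    rw [← hψ0] at hk2
    exact (hk2.comp (t₀ : ℂ) hψd).comp_ofReal
  have hk4 : (k' * (r.eval b₀ * Q.eval b₀)⁻¹).im = 0 := by
    have h1 : HasDerivAt (fun t : ℝ => (k (ψ (t : ℂ))).im)
        (k' * (r.eval b₀ * Q.eval b₀)⁻¹).im t₀ :=
      Complex.imCLM.hasFDerivAt.comp_hasDerivAt t₀ hk3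
    have h2 : HasDerivAt (fun t : ℝ => (k (ψ (t : ℂ))).im) 0 t₀ := by
      refine (hasDerivAt_const t₀ (0 : ℝ)).congr_of_eventuallyEq ?_
      filter_upwards [hreal, Metric.ball_mem_nhds t₀ hε] with t h3 h4
      have h5 := hball t (hcast t h4)
      rw [hk1 _ h5.1.1 h5.1.2.1 h5.1.2.2] at h3
      exact h3
    exact h1.unique h2
  have hk0 : (k b₀).im = 0 := by
    have h1 := hreal.self_of_nhds
    rw [hψ0, hk1 _ hoff hr hQ] at h1
    exact h1
  refine ⟨by rw [hk1 _ hoff hr hQ]; exact hk0, ?_⟩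
  obtain ⟨κ₀, hκ₀⟩ : ∃ κ₀ : ℝ, k b₀ = κ₀ := ⟨(k b₀).re, Complex.ext rfl hk0⟩
  obtain ⟨κ₁, hκ₁⟩ : ∃ κ₁ : ℝ, k' * (r.eval b₀ * Q.eval b₀)⁻¹ = κ₁ :=
    ⟨(k' * (r.eval b₀ * Q.eval b₀)⁻¹).re, Complex.ext rfl hk4⟩
  refine ⟨t₀ * κ₀ + (t₀ ^ 2 - 1) * κ₁, ?_⟩
  push_cast
  rw [← hκ₀, ← hκ₁, ← hb₀, ← exch_c γ c hoff, hk', hk]
  have h1 : P.eval b₀ ^ 2 - 1 = D.eval b₀ * Q.eval b₀ ^ 2 := by linear_combination hpe
  rw [h1]
  field_simp
  linear_combination (-2 * r.eval b₀ * (R.eval b₀ + r.eval b₀ * J0c γ c b₀)) * hpr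

end Comb

end Pool.Agent.R387.RS
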