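import Pool.Agent.Y94.R.Core
import Pool.Agent.R387.RS.Real2
set_option autoImplicit false

/-!
The combinations of the regulator integrals with few values at the special points of large prime
orders form spaces of dimension at most the number of the real critical values outside of
`[-1, 1]`.
-/

namespace Pool.Agent.R387.RS

open Polynomial Set Filter Module

open Pool.Agent.Y94.R

open scoped Topology

variable {D P Q r : ℂ[X]} {m : ℕ} (γ : Fin m → Lp D)

/-- the vectors `c` in `H` such that `R` is divisible by `s` -/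
noncomputable def NH (H : Submodule ℝ (Fin m → ℝ)) (r s : ℂ[X]) : Submodule ℝ (Fin m → ℝ) where
  carrier := {c | c ∈ H ∧ s ∣ Rc γ r c}
  zero_mem' := by
    refine ⟨Submodule.zero_mem _, ?_⟩
    have h := Rc_smul (r := r) γ 0 0
    rw [zero_smul, Complex.ofReal_zero, C_0, zero_mul] at h
    rw [h]
    exact dvd_zero s
  add_mem' := by
    rintro c c' ⟨h1, h2⟩ ⟨h3, h4⟩
    refine ⟨Submodule.add_mem _ h1 h3, ?_⟩
    rw [Rc_add]
    exact dvd_add h2 h4
  smul_mem' := by
    rintro a c ⟨h1, h2⟩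
    refine ⟨Submodule.smul_mem _ a h1, ?_⟩
    rw [Rc_smul]
    exact h2.mul_left _

theorem realTheta2 (h : Pell D P Q r) {c : Fin m → ℝ}
    (hc : FewValues γ P Q c) :
    RealTheta P (TT γ P) D r (nF (Ic γ c) (NN D)) (Rc γ r c) := by
  have hFK : ∀ᶠ b in KF P (TT γ P), ∃ t ∈ TT γ P, P.eval b = (t : ℝ) :=
    (eventually_principal.2 fun b hb => hb).filter_mono inf_le_right
  filter_upwards [hFK, eventually_ne (KF_le P _) h.r_ne] with b ⟨t, ht, hb⟩ hrb
  obtain ⟨-, θ, hθ⟩ := real_of_few γ c h hc (ht.2 b hb) ht.1 hb hrb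
  refine ⟨hrb, θ, ?_⟩
  rw [← hθ]
  unfold WW Rc
  simp

/-- critical values in `[-1, 1]` -/
theorem eval_eq_zero2 (hD : Squarefree D) (h : Pell D P Q r)
    (hoff : ∀ l β, r.eval β = 0 → (γ l).Off β) {c : Fin m → ℝ}
    (hc : FewValues γ P Q c) {s t S : ℂ[X]} (hst : r = s * t) {β : ℂ}
    (htβ : t.eval β = 0) (hS : Rc γ r c = s * S) (hβ : (P.eval β).im = 0)
    (hβ1 : |(P.eval β).re| ≤ 1) : S.eval β = 0 := by
  by_contra hSβ
  have hr := h.r_ne
  have hs0 : s ≠ 0 := by
    rintro rfl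
    exact hr (by rw [hst, zero_mul])
  have ht0 : t ≠ 0 := by
    rintro rfl
    exact hr (by rw [hst, mul_zero])
  have htQ : t * Q ≠ 0 := mul_ne_zero ht0 h.Q_ne
  have hrβ : r.eval β = 0 := by rw [hst, eval_mul, htβ, mul_zero]
  have hoffβ : ∀ l, (γ l).Off β := fun l => hoff l β hrβ
  obtain ⟨τ, hτ⟩ : ∃ τ : ℝ, P.eval β = τ := ⟨_, Complex.ext rfl hβ⟩
  have hτ1 : |τ| ≤ 1 := by
    rw [hτ, Complex.ofReal_re] at hβ1
    exact hβ1
  have hPc := h.P_sub_ne (P.eval β)
  obtain ⟨U, hU, hUβ⟩ := exists_eq_pow_rootMultiplicity_mul_and_not_dvd _ hPc β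
  obtain ⟨V1, hV1, hV1β⟩ := exists_eq_pow_rootMultiplicity_mul_and_not_dvd _ htQ β
  have hmult := h.mult β
  have hmr : rootMultiplicity β r = rootMultiplicity β s + rootMultiplicity β t := by
    rw [hst, rootMultiplicity_mul (by rw [← hst]; exact hr)]
  have hmt : 0 < rootMultiplicity β t := (rootMultiplicity_pos ht0).2 htβ
  have hmtQ : rootMultiplicity β (t * Q) = rootMultiplicity β t + rootMultiplicity β Q :=
    rootMultiplicity_mul htQ
  rw [hτ] at hU
  rw [hτ] at hmult
  have hcof : 𝓝[≠] β ≤ cofinite := by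
    rw [Filter.le_cofinite_iff_compl_singleton_mem]
    intro x
    rcases eq_or_ne x β with rfl | hx
    · exact self_mem_nhdsWithin
    · exact mem_nhdsWithin_of_mem_nhds (isOpen_compl_singleton.mem_nhds hx.symm)
  have hoffn : ∀ᶠ b in 𝓝 β, ∀ l, (γ l).Off b := (isOpen_off_all γ).mem_nhds hoffβ
  refine no_pole (h := fun b => ((derivative P).eval b)⁻¹ * Jc γ c r b) (c := S.eval β)
    hU (fun h0 => ?_) hV1 (fun h0 => hV1β (dvd_iff_isRoot.2 h0)) (by omega) (by omega) hSβ ?_ ?_ ?_
  · exact hUβ (dvd_iff_isRoot.2 h0)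
  · -- the limit
    have hJ0 : ContinuousAt (J0c γ c) β := (hasDerivAt_J0c γ c hoffβ).continuousAt
    have h1 : Tendsto (fun b => t.eval b * J0c γ c b + S.eval b) (𝓝[≠] β) (𝓝 (S.eval β)) := by
      have h2 : ContinuousAt (fun b => t.eval b * J0c γ c b + S.eval b) β :=
        (t.continuous.continuousAt.mul hJ0).add S.continuous.continuousAt
      have h3 := h2.tendsto
      simp only [htβ, zero_mul, zero_add] at h3
      exact h3.mono_left nhdsWithin_le_nhds
    refine h1.congr' ?_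
    filter_upwards [hoffn.filter_mono nhdsWithin_le_nhds, eventually_ne hcof hr,
      eventually_ne hcof h.Q_ne] with b hb hrb hQb
    have h2 := congrArg (Polynomial.eval b) h.der
    have h3 := congrArg (Polynomial.eval b) hS
    rw [eval_mul] at h2 h3
    have h4 := congrArg (Polynomial.eval b) hst
    rw [eval_mul] at h4
    have hsb : s.eval b ≠ 0 := fun h0 => hrb (by rw [h4, h0, zero_mul])
    have htb : t.eval b ≠ 0 := fun h0 => hrb (by rw [h4, h0, mul_zero])
    rw [Jc_eq γ c r hb, h2, eval_mul]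
    change RR (Ic γ c) r = _ at hS
    rw [hS, eval_mul, h4]
    field_simp
  · filter_upwards [hoffn.filter_mono nhdsWithin_le_nhds, eventually_ne hcof hr] with b hb hrb
    intro x hx hbx
    exact (real_of_few γ c h hc hb hx hbx hrb).1
  · rcases hτ1.lt_or_eq with h1 | h1
    · exact Or.inl h1
    refine Or.inr ⟨h1, ?_⟩
    have hτ2 : (τ : ℂ) ^ 2 = 1 := by
      have h2 : τ ^ 2 = 1 := by rw [← sq_abs, h1, one_pow]
      exact_mod_cast h2
    have h2 : P ^ 2 - 1 = (P - C (τ : ℂ)) * (P + C (τ : ℂ)) := by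
      have h3 : (C (τ : ℂ) : ℂ[X]) ^ 2 = 1 := by rw [← C_pow, hτ2, C_1]
      linear_combination h3
    have h3 : P ^ 2 - 1 = D * Q ^ 2 := by linear_combination h.eq
    have h4 : (P + C (τ : ℂ)).eval β ≠ 0 := by
      rw [eval_add, eval_C, hτ]
      intro h5
      have h6 : (τ : ℂ) = 0 := by linear_combination (1 / 2) * h5
      rw [h6] at hτ2
      norm_num at hτ2
    have hD0 : D ≠ 0 := hD.ne_zero
    have hDQ : D * Q ^ 2 ≠ 0 := mul_ne_zero hD0 (pow_ne_zero 2 h.Q_ne)
    have h5 : rootMultiplicity β (P ^ 2 - 1) = rootMultiplicity β (P - C (τ : ℂ)) := by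
      rw [h2, rootMultiplicity_mul (by rw [← h2, h3]; exact hDQ),
        rootMultiplicity_eq_zero (p := P + C (τ : ℂ)) h4, add_zero]
    have h6 : rootMultiplicity β (P ^ 2 - 1) =
        rootMultiplicity β D + 2 * rootMultiplicity β Q := by
      rw [h3, rootMultiplicity_mul hDQ, rootMultiplicity_pow' h.Q_ne]
    have h7 : rootMultiplicity β D ≤ 1 := by
      by_contra h8
      have h9 : (X - C β) ^ 2 ∣ D :=
        (pow_dvd_pow _ (by omega)).trans (pow_rootMultiplicity_dvd D β)
      rw [pow_two] at h9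
      exact Polynomial.not_isUnit_X_sub_C β (hD _ h9)
    omega

/-- Dividing by one more linear factor decreases the dimension by at most one. -/
theorem NH_step (hD : Squarefree D) (h : Pell D P Q r)
    (hoff : ∀ l β, r.eval β = 0 → (γ l).Off β) (hT : (TT γ P).Nonempty)
    {H : Submodule ℝ (Fin m → ℝ)} (hH : ∀ c ∈ H, FewValues γ P Q c) (s : ℂ[X])
    (β : ℂ) (hsβ : s * (X - C β) ∣ r) :
    (¬ Bad P β → NH γ H r s ≤ NH γ H r (s * (X - C β))) ∧
    finrank ℝ (NH γ H r s) ≤ finrank ℝ (NH γ H r (s * (X - C β))) + 1 := by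
  obtain ⟨ρ, hρ⟩ := hsβ
  have hst : r = s * ((X - C β) * ρ) := by rw [hρ, mul_assoc]
  have htβ : ((X - C β) * ρ).eval β = 0 := by simp
  obtain ⟨w, hw0, hw1, hw2⟩ := exists_coord h.deg (TT_infinite γ hT)
  have hr := h.r_ne
  have hs0 : s ≠ 0 := by
    rintro rfl
    exact hr (by rw [hst, zero_mul])
  have hdvd : ∀ (c : Fin m → ℝ) (S : ℂ[X]), c ∈ H →
      Rc γ r c = s * S → S.eval β = 0 → c ∈ NH γ H r (s * (X - C β)) := by
    intro c S hc hS hSβ
    refine ⟨hc, ?_⟩
    rw [hS]
    exact mul_dvd_mul_left s (dvd_iff_isRoot.2 hSβ)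
  refine ⟨fun hbad c hc => ?_, ?_⟩
  · obtain ⟨hc1, S, hS⟩ := hc
    refine hdvd c S hc1 hS ?_
    by_cases him : (P.eval β).im = 0
    · have hre : |(P.eval β).re| ≤ 1 := by
        by_contra h1
        exact hbad ⟨him, not_le.1 h1⟩
      exact eval_eq_zero2 γ hD h hoff (hH _ hc1) hst htβ hS him hre
    · by_contra hSβ
      have hβ2 : P.eval β ^ 2 ≠ 1 := by
        intro h1
        have h2 : (P.eval β - 1) * (P.eval β + 1) = 0 := by linear_combination h1
        rcases mul_eq_zero.1 h2 with h3 | h3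
        · rw [sub_eq_zero.1 h3] at him
          exact him Complex.one_im
        · rw [eq_neg_of_add_eq_zero_left h3] at him
          simp at him
      have hθ := realTheta2 γ h (hH _ hc1)
      rw [hS] at hθ
      exact hw0 β him (local_real h hw1 hw2 hβ2 hst htβ hθ hθ hSβ).1
  · by_cases hle : NH γ H r s ≤ NH γ H r (s * (X - C β))
    · exact (Submodule.finrank_mono hle).trans (Nat.le_succ _)
    obtain ⟨c₀, hc₀, hc₀'⟩ := SetLike.not_le_iff_exists.1 hle
    obtain ⟨hc01, S₀, hS₀⟩ := hc₀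
    have hS₀β : S₀.eval β ≠ 0 := fun h1 => hc₀' (hdvd c₀ S₀ hc01 hS₀ h1)
    have hβ2 : P.eval β ^ 2 ≠ 1 := by
      intro h1
      have h2 : (P.eval β - 1) * (P.eval β + 1) = 0 := by linear_combination h1
      refine hS₀β (eval_eq_zero2 γ hD h hoff (hH _ hc01) hst htβ hS₀ ?_ ?_)
      · rcases mul_eq_zero.1 h2 with h3 | h3
        · rw [sub_eq_zero.1 h3]
          exact Complex.one_im
        · rw [eq_neg_of_add_eq_zero_left h3]
          simp
      · rcases mul_eq_zero.1 h2 with h3 | h3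
        · rw [sub_eq_zero.1 h3]
          simp
        · rw [eq_neg_of_add_eq_zero_left h3]
          simp
    have hθ0 := realTheta2 γ h (hH _ hc01)
    rw [hS₀] at hθ0
    have hle2 : NH γ H r s ≤ NH γ H r (s * (X - C β)) ⊔ Submodule.span ℝ {c₀} := by
      intro c hc
      obtain ⟨hc1, S, hS⟩ := hc
      have hθ := realTheta2 γ h (hH _ hc1)
      rw [hS] at hθ
      obtain ⟨-, lam, hlam⟩ := local_real h hw1 hw2 hβ2 hst htβ hθ0 hθ hS₀β
      have h1 : c - lam • c₀ ∈ NH γ H r (s * (X - C β)) := by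
        refine hdvd _ (S - C (lam : ℂ) * S₀) ?_ ?_ ?_
        · exact Submodule.sub_mem _ hc1 (Submodule.smul_mem _ lam hc01)
        · have h2 : c - lam • c₀ = c + (-lam) • c₀ := by rw [neg_smul, sub_eq_add_neg]
          rw [h2, Rc_add, Rc_smul, hS, hS₀]
          push_cast
          rw [C_neg]
          ring
        · rw [eval_sub, eval_mul, eval_C, hlam, sub_self]
      have h2 : c = (c - lam • c₀) + lam • c₀ := by rw [sub_add_cancel]
      rw [h2]
      exact Submodule.add_mem_sup h1 (Submodule.smul_mem _ lam (Submodule.mem_span_singleton_self _))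
    refine (Submodule.finrank_mono hle2).trans ?_
    refine (Submodule.finrank_add_le_finrank_add_finrank _ _).trans ?_
    have hc₀ne : c₀ ≠ 0 := by
      rintro rfl
      exact hc₀' (Submodule.zero_mem _)
    rw [finrank_span_singleton hc₀ne]

/-- the dimension of the annihilator -/
theorem finrank_NH_le [DecidablePred (Bad P)] (hD : Squarefree D) (h : Pell D P Q r)
    (hoff : ∀ l β, r.eval β = 0 → (γ l).Off β) (hT : (TT γ P).Nonempty)
    {H : Submodule ℝ (Fin m → ℝ)} (hH : ∀ c ∈ H, FewValues γ P Q c)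
    (hind : ∀ c : Fin m → ℝ, c ≠ 0 → ∃ j < r.natDegree, Ic γ c (X ^ j) ≠ 0)
    (M : Multiset ℂ) : ∀ s : ℂ[X], r = C r.leadingCoeff * (s * (M.map fun a => X - C a).prod) →
      finrank ℝ (NH γ H r s) ≤ Multiset.card (M.filter (Bad P)) := by
  induction M using Multiset.induction_on with
  | empty =>
    intro s hs
    rw [Multiset.map_zero, Multiset.prod_zero, mul_one] at hs
    have h1 : NH γ H r s = ⊥ := by
      rw [Submodule.eq_bot_iff]
      intro c hc
      by_contra hc0
      obtain ⟨j, hj, hjc⟩ := hind c hc0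
      refine hjc (functional_zero (Ic γ c) r h.r_ne ?_ j hj)
      have h2 : r ∣ Rc γ r c := by
        refine dvd_trans ?_ hc.2
        refine ⟨C r.leadingCoeff⁻¹, ?_⟩
        have h3 := leadingCoeff_ne_zero.2 h.r_ne
        calc s = C (r.leadingCoeff⁻¹ * r.leadingCoeff) * s := by
              rw [inv_mul_cancel₀ h3, C_1, one_mul]
          _ = C r.leadingCoeff⁻¹ * (C r.leadingCoeff * s) := by rw [C_mul, mul_assoc]
          _ = C r.leadingCoeff⁻¹ * r := by rw [← hs]
          _ = r * C r.leadingCoeff⁻¹ := mul_comm _ _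
      exact Polynomial.eq_zero_of_dvd_of_degree_lt h2 (RR_degree _ _ h.r_ne)
    rw [h1, finrank_bot]
    exact Nat.zero_le _
  | cons a M ih =>
    intro s hs
    rw [Multiset.map_cons, Multiset.prod_cons, ← mul_assoc s] at hs
    have h1 := ih (s * (X - C a)) hs
    have h2 : s * (X - C a) ∣ r := ⟨C r.leadingCoeff * (M.map fun a => X - C a).prod, by
      conv_lhs => rw [hs]
      ring⟩
    obtain ⟨h3, h4⟩ := NH_step γ hD h hoff hT hH s a h2
    by_cases hb : Bad P a
    · rw [Multiset.filter_cons_of_pos _ hb, Multiset.card_cons]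
      omega
    · rw [Multiset.filter_cons_of_neg _ hb]
      exact (Submodule.finrank_mono (h3 hb)).trans h1

/-- A space of combinations with few values is small. -/
theorem finrank_le [DecidablePred (Bad P)] (hD : Squarefree D) (h : Pell D P Q r)
    (hoff : ∀ l β, r.eval β = 0 → (γ l).Off β) (hT : (TT γ P).Nonempty)
    {H : Submodule ℝ (Fin m → ℝ)} (hH : ∀ c ∈ H, FewValues γ P Q c)
    (hind : ∀ c : Fin m → ℝ, c ≠ 0 → ∃ j < r.natDegree, Ic γ c (X ^ j) ≠ 0) :
    finrank ℝ H ≤ Multiset.card (r.roots.filter (Bad P)) := by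
  have h1 := finrank_NH_le γ hD h hoff hT hH hind r.roots 1 (by
    rw [one_mul]
    exact (IsAlgClosed.splits r).eq_prod_roots)
  have h2 : H ≤ NH γ H r 1 := fun c hc => ⟨hc, one_dvd _⟩
  exact (Submodule.finrank_mono h2).trans h1

end Pool.Agent.R387.RS
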