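import Pool.Agent.R387.RS.Step
import Pool.Agent.Y94.R.Asm
set_option autoImplicit false

/-!
The number field generated by the special points, and the symbols over it.
-/

namespace Pool.Agent.R387.RS

open Polynomial Module

open Pool.Agent.Y94.R

open Pool.Agent.TH826.MK (KQ symb Unramified Torus)

universe u

/-- the same loop on the same curve -/
def castLp {D D' : ℂ[X]} (h : D = D') (γ : Lp D) : Lp D' where
  x := γ.x
  y := γ.y
  contDiff_x := γ.contDiff_x
  contDiff_y := γ.contDiff_y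
  periodic_x := γ.periodic_x
  periodic_y := γ.periodic_y
  eq := by
    subst h
    exact γ.eq
  ne := γ.ne

theorem castLp_rho {D D' : ℂ[X]} (h : D = D') (γ : Lp D) (P Q : ℂ[X]) (b : ℂ) :
    (castLp h γ).rho P Q b = γ.rho P Q b := rfl

/-- A root of a polynomial with integral coefficients and a unit as leading coefficient is
integral. -/
theorem isIntegral_root {F : Type*} [Field F] {q : F[X]} (hq : ∀ i, IsIntegral ℤ (q.coeff i))
    (hl : IsIntegral ℤ q.leadingCoeff⁻¹) (hq0 : q ≠ 0) {b : F} (hb : q.eval b = 0) :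
    IsIntegral ℤ b := by
  have hl0 : q.leadingCoeff ≠ 0 := leadingCoeff_ne_zero.2 hq0
  set q' : F[X] := C q.leadingCoeff⁻¹ * q with hq'
  have hm : q'.Monic := by
    rw [hq', Monic, leadingCoeff_mul, leadingCoeff_C, inv_mul_cancel₀ hl0]
  have hc : ∀ i, IsIntegral ℤ (q'.coeff i) := fun i => by
    rw [hq', coeff_C_mul]
    exact hl.mul (hq i)
  have hlift : q' ∈ Polynomial.lifts (algebraMap (integralClosure ℤ F) F) := by
    rw [Polynomial.lifts_iff_coeff_lifts]
    intro i
    exact ⟨⟨q'.coeff i, hc i⟩, rfl⟩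
  obtain ⟨q₁, h1, -, h2⟩ := Polynomial.lifts_and_natDegree_eq_and_monic hlift hm
  have h3 : IsIntegral (integralClosure ℤ F) b := by
    refine ⟨q₁, h2, ?_⟩
    rw [← eval_map, h1, hq', eval_mul, hb, mul_zero]
  exact isIntegral_trans (R := ℤ) (A := integralClosure ℤ F) b h3

namespace Dt

variable {K : Type u} [Field K] [NumberField K] {A : Dt K}

theorem final_aux (Ka : Type u) [Field Ka] [Algebra K Ka] [IsAlgClosure K Ka] (h : A.Ok) (hint : ∀ i, IsIntegral ℤ (2 * A.P.coeff i))
    (hlead : IsIntegral ℤ (2 * A.P.leadingCoeff)⁻¹) :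
    ∃ (L : Type u) (_ : Field L) (_ : NumberField L) (_ : Algebra K L)
      (τ : Fin A.N → L →+* ℂ) (b : Fin (∑ i, A.n i + 1) → L)
      (hL : (A.P.map (algebraMap K L)) ^ 2 -
        (A.D.map (algebraMap K L)) * (A.Q.map (algebraMap K L)) ^ 2 = 1),
      (∀ i, (τ i).comp (algebraMap K L) = A.s i) ∧
      (∀ j, IsIntegral ℤ (b j)) ∧
      (∀ j, ∃ k : ℕ, k ≠ 0 ∧ ∀ s : L →+* ℂ, ∃ ζ : ℂ, ζ ^ k = 1 ∧
        s (2 * (A.P.map (algebraMap K L)).eval (b j)) = ζ + ζ⁻¹) ∧
      ∃ Γ : ∀ i, Fin (A.m i) → Torus (HOpen (A.D.map (algebraMap K L)) b) 1,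
        (∀ i l θ, (∀ c : L, (Γ i l).e θ (hcst _ b c) = τ i c) ∧
          (Γ i l).e θ (toH _ b (hpol _ X)) = (A.γ i l).x (θ 0) ∧
          (Γ i l).e θ (toH _ b (hy _)) = (A.γ i l).y (θ 0)) ∧
        LinearIndependent ℝ fun (j : Fin (∑ i, A.n i)) (x : Σ i, Fin (A.m i)) =>
          (Γ x.1 x.2).reg (symb (hent b hL j.succ 0)) := by
  obtain ⟨τ, b, hS⟩ := exists_St (Ka := Ka) h _ le_rfl
  have halg : Algebra.IsAlgebraic K Ka := IsAlgClosure.isAlgebraic
  have hchK : CharZero K := inferInstance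
  have hch : CharZero Ka := charZero_of_injective_algebraMap (algebraMap K Ka).injective
  let L : IntermediateField K Ka := IntermediateField.adjoin K (Set.range b)
  have hfin : FiniteDimensional K L := by
    have hf : Finite (Set.range b) := Set.finite_range b
    exact IntermediateField.finiteDimensional_adjoin fun x _ => Algebra.IsIntegral.isIntegral x
  have hchL : CharZero L := charZero_of_injective_algebraMap (algebraMap K L).injective
  have hL : NumberField L := by
    have : FiniteDimensional ℚ L := FiniteDimensional.trans ℚ K L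
    exact ⟨⟩
  have hclK : IsAlgClosed Ka := IsAlgClosure.isAlgClosed K
  have hclL : IsAlgClosure L Ka := ⟨hclK, Algebra.IsAlgebraic.tower_top (K := K) L⟩
  have hbL : ∀ j, b j ∈ L := fun j => IntermediateField.subset_adjoin K _ ⟨j, rfl⟩
  have hval : ∀ (p : K[X]) (x : L), (((p.map (algebraMap K L)).eval x : L) : Ka) =
      aeval (x : Ka) p := by
    intro p x
    rw [eval_map, ← aeval_def]
    exact (aeval_algebraMap_apply Ka x p).symm
  have hmap : ∀ (i : Fin A.N) (p : K[X]),
      (p.map (algebraMap K L)).map ((τ i).comp (algebraMap L Ka)) = p.map (A.s i) := by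
    intro i p
    rw [Polynomial.map_map]
    congr 1
    rw [← hS.comp i]
    rfl
  have hPQ : (A.P.map (algebraMap K L)) ^ 2 -
      (A.D.map (algebraMap K L)) * (A.Q.map (algebraMap K L)) ^ 2 = 1 := by
    have h1 := congrArg (Polynomial.map (algebraMap K L)) h.pell
    simpa using h1
  have hoff : ∀ i l j, (castLp (hmap i A.D).symm (A.γ i l)).Off
      (((τ i).comp (algebraMap L Ka)) (⟨b j, hbL j⟩ : L)) := fun i l j => hS.off i l j
  refine ⟨L, inferInstance, hL, inferInstance, fun i => (τ i).comp (algebraMap L Ka),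
    fun j => ⟨b j, hbL j⟩, hPQ, ?_, ?_, ?_, ?_⟩
  · intro i
    rw [← hS.comp i]
    rfl
  · intro j
    obtain ⟨p, ζ, hp, hζ, hb⟩ := hS.sp j
    have h1 : IsIntegral ℤ (b j) := by
      have hζi : IsIntegral ℤ ζ := hζ.isIntegral hp.pos
      have hζi' : IsIntegral ℤ ζ⁻¹ := hζ.inv.isIntegral hp.pos
      have hdeg : (C 2 * A.P.map (algebraMap K Ka) - C (ζ + ζ⁻¹) : Polynomial Ka).natDegree =
          A.P.natDegree := by
        rw [natDegree_sub_C, natDegree_C_mul two_ne_zero, natDegree_map]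
      have hlc : (C 2 * A.P.map (algebraMap K Ka) - C (ζ + ζ⁻¹) : Polynomial Ka).leadingCoeff =
          algebraMap K Ka (2 * A.P.leadingCoeff) := by
        rw [leadingCoeff, hdeg, coeff_sub, coeff_C_mul, coeff_map, coeff_C_of_ne_zero h.deg.ne',
          sub_zero, map_mul, map_ofNat]
        rfl
      refine isIntegral_root (q := (C 2 * A.P.map (algebraMap K Ka) - C (ζ + ζ⁻¹) : Polynomial Ka))
        (fun i => ?_) ?_ ?_ ?_
      · rw [coeff_sub, coeff_C_mul, coeff_map]
        refine IsIntegral.sub ?_ ?_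
        · have h2 := (hint i).map (algebraMap K Ka).toIntAlgHom
          have h3 : (algebraMap K Ka).toIntAlgHom (2 * A.P.coeff i) =
              2 * algebraMap K Ka (A.P.coeff i) := by
            show algebraMap K Ka (2 * A.P.coeff i) = _
            rw [map_mul, map_ofNat]
          rw [← h3]
          exact h2
        · rw [coeff_C]
          split_ifs
          · exact hζi.add hζi'
          · exact isIntegral_zero
      · rw [hlc]
        have h2 := hlead.map (algebraMap K Ka).toIntAlgHom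
        have h3 : (algebraMap K Ka).toIntAlgHom (2 * A.P.leadingCoeff)⁻¹ =
            (algebraMap K Ka (2 * A.P.leadingCoeff))⁻¹ := by
          show algebraMap K Ka (2 * A.P.leadingCoeff)⁻¹ = _
          rw [map_inv₀]
        rw [← h3]
        exact h2
      · intro h0
        rw [h0, natDegree_zero] at hdeg
        have := h.deg
        omega
      · rw [eval_sub, eval_mul, eval_C, eval_C, eval_map, ← aeval_def, hb, sub_self]
    have h2 : Function.Injective (algebraMap L Ka) := (algebraMap L Ka).injective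
    exact (isIntegral_algebraMap_iff (R := ℤ) (A := L) (B := Ka) h2).1 h1
  · intro j
    obtain ⟨p, ζ, hp, hζ, hb⟩ := hS.sp j
    refine ⟨p, hp.ne_zero, fun s => ?_⟩
    obtain ⟨t, ht⟩ := exists_tau (K := L) (Ka := Ka) s
    refine ⟨t ζ, by rw [← map_pow, hζ.pow_eq_one, map_one], ?_⟩
    have h6 : algebraMap L Ka (2 * (A.P.map (algebraMap K L)).eval (⟨b j, hbL j⟩ : L)) =
        2 * aeval (b j) A.P := by
      rw [map_mul, map_ofNat]
      congr 1
      exact hval A.P ⟨b j, hbL j⟩
    rw [← ht, RingHom.comp_apply, h6, hb, map_add, map_inv₀]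
  · refine ⟨fun i l => mkH (s := (τ i).comp (algebraMap L Ka)) (castLp (hmap i A.D).symm (A.γ i l))
      fun j => hoff i l j, ?_, ?_⟩
    · intro i l θ
      refine ⟨fun c => ?_, ?_, ?_⟩
      · rw [mkH_e, HPt.evA_hcst]
      · rw [mkH_e, HPt.evA_toH, HPt.evB_hpol, eval₂_X]
        rfl
      · rw [mkH_e, HPt.evA_toH, HPt.evB_hy]
        rfl
    · have h1 : (fun (j : Fin (∑ i, A.n i)) (x : Σ i, Fin (A.m i)) =>
          (mkH (s := (τ x.1).comp (algebraMap L Ka)) (castLp (hmap x.1 A.D).symm (A.γ x.1 x.2))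
            fun j => hoff x.1 x.2 j).reg (symb (hent (fun j => (⟨b j, hbL j⟩ : L)) hPQ j.succ 0))) =
          fun j => A.vec τ (b j.succ) - A.vec τ (b 0) := by
        funext j x
        rw [mkH_reg (r := A.r.map (algebraMap K L)) hPQ (by
          rw [hmap, hmap, hmap, hmap]
          exact h.Pell x.1) _ (fun j => hoff x.1 x.2 j) j.succ 0]
        simp only [castLp_rho, hmap]
        rfl
      rw [h1]
      exact hS.li

theorem final (h : A.Ok) (hint : ∀ i, IsIntegral ℤ (2 * A.P.coeff i))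
    (hlead : IsIntegral ℤ (2 * A.P.leadingCoeff)⁻¹) :
    ∃ (L : Type u) (_ : Field L) (_ : NumberField L) (_ : Algebra K L)
      (τ : Fin A.N → L →+* ℂ) (b : Fin (∑ i, A.n i + 1) → L)
      (hL : (A.P.map (algebraMap K L)) ^ 2 -
        (A.D.map (algebraMap K L)) * (A.Q.map (algebraMap K L)) ^ 2 = 1),
      (∀ i, (τ i).comp (algebraMap K L) = A.s i) ∧
      (∀ j, IsIntegral ℤ (b j)) ∧
      (∀ j, ∃ k : ℕ, k ≠ 0 ∧ ∀ s : L →+* ℂ, ∃ ζ : ℂ, ζ ^ k = 1 ∧
        s (2 * (A.P.map (algebraMap K L)).eval (b j)) = ζ + ζ⁻¹) ∧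
      ∃ Γ : ∀ i, Fin (A.m i) → Torus (HOpen (A.D.map (algebraMap K L)) b) 1,
        (∀ i l θ, (∀ c : L, (Γ i l).e θ (hcst _ b c) = τ i c) ∧
          (Γ i l).e θ (toH _ b (hpol _ X)) = (A.γ i l).x (θ 0) ∧
          (Γ i l).e θ (toH _ b (hy _)) = (A.γ i l).y (θ 0)) ∧
        LinearIndependent ℝ fun (j : Fin (∑ i, A.n i)) (x : Σ i, Fin (A.m i)) =>
          (Γ x.1 x.2).reg (symb (hent b hL j.succ 0)) :=
  final_aux (AlgebraicClosure K) h hint hlead

end Dt

end Pool.Agent.R387.RS
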