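import Mathlib
set_option autoImplicit false

/-!
The primitive `p`-th roots of unity are conjugate over a number field, for all large primes `p`.
-/

namespace Pool.Agent.R387.RS

open Polynomial IntermediateField Module

theorem coprime_discr {M : Type*} [Field M] [NumberField M] {p : ℕ} (hp : p.Prime)
    {d : ℤ} (hd : ¬ (p : ℤ) ∣ d) [IsCyclotomicExtension {p} ℚ M] :
    IsCoprime (NumberField.discr M) d := by
  have : NeZero p := ⟨hp.ne_zero⟩
  have h1 := IsCyclotomicExtension.Rat.natAbs_discr (n := p) (K := M)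
  rw [Int.isCoprime_iff_nat_coprime, h1]
  refine Nat.Coprime.coprime_div_left ?_ (Nat.prod_primeFactors_pow_totient_ediv_dvd (NeZero.pos _))
  refine Nat.Coprime.pow_left _ ?_
  rw [Nat.Prime.coprime_iff_not_dvd hp]
  rwa [Int.natCast_dvd] at hd

theorem irreducible_cyclotomic (E : Type*) [Field E] [NumberField E] :
    ∃ p₀ : ℕ, ∀ p : ℕ, p.Prime → p₀ ≤ p → Irreducible (cyclotomic p E) := by
  refine ⟨(NumberField.discr E).natAbs + 1, fun p hp hle => ?_⟩
  have hNZ : NeZero p := ⟨hp.ne_zero⟩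
  have hd : ¬ (p : ℤ) ∣ NumberField.discr E := by
    rw [Int.natCast_dvd]
    intro h
    have := Nat.le_of_dvd (Int.natAbs_pos.2 (NumberField.discr_ne_zero E)) h
    omega
  let M := CyclotomicField p E
  have hM : NumberField M := IsCyclotomicExtension.numberField {p} E M
  have hζ := IsCyclotomicExtension.zeta_spec p E M
  set ζ := IsCyclotomicExtension.zeta p E M with hζdef
  have hcyc : IsCyclotomicExtension {p} ℚ ℚ⟮ζ⟯ := hζ.intermediateField_adjoin_isCyclotomicExtension ℚ
  have hgal : IsGalois ℚ ℚ⟮ζ⟯ := IsCyclotomicExtension.isGalois {p} ℚ _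
  let K₂ : IntermediateField ℚ M := (IsScalarTower.toAlgHom ℚ E M).fieldRange
  let e : E ≃ₐ[ℚ] K₂ := AlgEquiv.ofInjectiveField (IsScalarTower.toAlgHom ℚ E M)
  have hdisc : NumberField.discr K₂ = NumberField.discr E :=
    (NumberField.discr_eq_discr_of_algEquiv E e).symm
  have hco : IsCoprime (NumberField.discr ℚ⟮ζ⟯) (NumberField.discr K₂) := by
    rw [hdisc]
    exact coprime_discr hp hd
  have hdis := NumberField.linearDisjoint_of_isGalois_isCoprime_discr M ℚ⟮ζ⟯ K₂ hco
  have htop : ℚ⟮ζ⟯ ⊔ K₂ = ⊤ := by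
    rw [eq_top_iff]
    intro x _
    have hx : x ∈ Algebra.adjoin E {ζ} := by
      rw [IsCyclotomicExtension.adjoin_primitive_root_eq_top hζ]
      exact Algebra.mem_top
    induction hx using Algebra.adjoin_induction with
    | mem y hy =>
      rw [Set.mem_singleton_iff.1 hy]
      exact (le_sup_left : ℚ⟮ζ⟯ ≤ _) (mem_adjoin_simple_self ℚ ζ)
    | algebraMap r => exact (le_sup_right : K₂ ≤ _) ⟨r, rfl⟩
    | add x y _ _ h1 h2 => exact add_mem (h1 trivial) (h2 trivial)
    | mul x y _ _ h1 h2 => exact mul_mem (h1 trivial) (h2 trivial)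
  have h1 := hdis.finrank_right_eq_finrank htop
  have h2 : finrank ℚ ℚ⟮ζ⟯ = p - 1 := by
    rw [IsCyclotomicExtension.finrank (n := p) ℚ⟮ζ⟯ (cyclotomic.irreducible_rat hp.pos),
      Nat.totient_prime hp]
  have h3 : finrank ℚ K₂ = finrank ℚ E := e.toLinearEquiv.finrank_eq.symm
  have h4 : finrank E M = p - 1 := by
    have h5 := Module.finrank_mul_finrank ℚ E M
    have h6 := Module.finrank_mul_finrank ℚ K₂ M
    rw [h1, h2, h3, ← h5] at h6
    exact (Nat.eq_of_mul_eq_mul_left finrank_pos h6).symm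
  have h5 : (minpoly E ζ).natDegree = p - 1 := by
    rw [← h4, ← hζ.powerBasis_gen E, (hζ.powerBasis E).natDegree_minpoly,
      (hζ.powerBasis E).finrank]
  have h6 : minpoly E ζ ∣ cyclotomic p E := by
    refine minpoly.dvd E ζ ?_
    rw [aeval_def, eval₂_eq_eval_map, map_cyclotomic]
    exact hζ.isRoot_cyclotomic hp.pos
  have h7 : cyclotomic p E = minpoly E ζ := by
    refine eq_of_monic_of_dvd_of_natDegree_le
      (minpoly.monic (Algebra.IsIntegral.isIntegral ζ)) (cyclotomic.monic p E) h6 ?_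
    rw [h5, natDegree_cyclotomic, Nat.totient_prime hp]
  rw [h7]
  exact minpoly.irreducible (Algebra.IsIntegral.isIntegral ζ)

/-- Primitive `p`-th roots of unity are conjugate over `E` for all large primes `p`. -/
theorem exists_conj (K : Type*) [Field K] [NumberField K] {Ka : Type*} [Field Ka] [Algebra K Ka]
    [IsAlgClosure K Ka] (E : IntermediateField K Ka) [FiniteDimensional K E] :
    ∃ p₀ : ℕ, ∀ p : ℕ, p.Prime → p₀ ≤ p → ∀ ζ ζ' : Ka, IsPrimitiveRoot ζ p →
      IsPrimitiveRoot ζ' p → ∃ g : Ka ≃ₐ[E] Ka, g ζ = ζ' := by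
  have hE : NumberField E := by
    have : CharZero E := charZero_of_injective_algebraMap (algebraMap K E).injective
    have : FiniteDimensional ℚ E := FiniteDimensional.trans ℚ K E
    exact ⟨⟩
  obtain ⟨p₀, h⟩ := irreducible_cyclotomic E
  refine ⟨p₀, fun p hp hle ζ ζ' hζ hζ' => ?_⟩
  have hirr := h p hp hle
  have hne : NeZero (p : E) := ⟨by exact_mod_cast hp.ne_zero⟩
  have h1 := hζ.minpoly_eq_cyclotomic_of_irreducible hirr
  have h2 := hζ'.minpoly_eq_cyclotomic_of_irreducible hirr
  have halg : Algebra.IsAlgebraic K Ka := IsAlgClosure.isAlgebraic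
  have halgE : Algebra.IsAlgebraic E Ka := Algebra.IsAlgebraic.tower_top (K := K) E
  have hclosed : IsAlgClosed Ka := IsAlgClosure.isAlgClosed K
  have hcl : IsAlgClosure E Ka := ⟨hclosed, halgE⟩
  have hn : Normal E Ka := IsAlgClosure.normal E Ka
  have h3 : IsConjRoot E ζ ζ' := by
    rw [isConjRoot_def, ← h1, ← h2]
  exact isConjRoot_iff_exists_algEquiv.1 h3.symm

end Pool.Agent.R387.RS
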