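import Pool.Agent.R387.RS.Core2
import Pool.Agent.R387.RS.Irr
set_option autoImplicit false

/-!
The combinations of the regulator integrals that take the same values at conjugate special points
take few values.
-/

namespace Pool.Agent.R387.RS

open Polynomial Module

open Pool.Agent.Y94.R

/-- Roots are images of roots. -/
theorem lift_root {Ka : Type*} [Field Ka] [IsAlgClosed Ka] (τ : Ka →+* ℂ) {q : Ka[X]} (hq : q ≠ 0)
    {β : ℂ} (h : (q.map τ).eval β = 0) : ∃ b : Ka, q.eval b = 0 ∧ τ b = β := by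
  have h1 := (IsAlgClosed.splits q).eq_prod_roots
  have hlc : τ q.leadingCoeff ≠ 0 := (map_ne_zero τ).2 (leadingCoeff_ne_zero.2 hq)
  rw [h1, Polynomial.map_mul, map_C, eval_mul, eval_C, Polynomial.map_multiset_prod,
    eval_multiset_prod, Multiset.map_map, Multiset.map_map] at h
  have h2 := (mul_eq_zero.1 h).resolve_left hlc
  rw [Multiset.prod_eq_zero_iff, Multiset.mem_map] at h2
  obtain ⟨a, ha, h3⟩ := h2
  simp only [Function.comp_apply, Polynomial.map_sub, map_X, map_C, eval_sub, eval_X,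
    eval_C] at h3
  exact ⟨a, (mem_roots hq).1 ha, (sub_eq_zero.1 h3).symm⟩

/-- The complex number `exp (2 π i a / p)`. -/
noncomputable def ze (p a : ℕ) : ℂ := Complex.exp (2 * Real.pi * Complex.I * (a / p))

theorem ze_prim {p a : ℕ} (hp : p.Prime) (ha : 0 < a) (hap : a < p) : IsPrimitiveRoot (ze p a) p :=
  Complex.isPrimitiveRoot_exp_of_coprime a p hp.ne_zero
    (Nat.coprime_of_lt_prime ha.ne' hap hp).symm

theorem two_cs (p a : ℕ) : 2 * ((cs p a : ℝ) : ℂ) = ze p a + (ze p a)⁻¹ := by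
  unfold cs ze
  rw [← Complex.exp_neg, Complex.ofReal_cos, Complex.cos]
  have h1 : ((2 * Real.pi * a / p : ℝ) : ℂ) * Complex.I = 2 * Real.pi * Complex.I * (a / p) := by
    push_cast
    ring
  rw [neg_mul, h1]
  ring

section

variable {Ka : Type*} [Field Ka] [IsAlgClosed Ka] (τ : Ka →+* ℂ)

theorem lift_ze {p a : ℕ} (hp : p.Prime) (ha : 0 < a) (hap : a < p) :
    ∃ ζ : Ka, IsPrimitiveRoot ζ p ∧ τ ζ = ze p a := by
  have h1 := ze_prim hp ha hap
  obtain ⟨ζ, h2, h3⟩ := lift_root τ (q := X ^ p - 1) (X_pow_sub_C_ne_zero hp.pos 1) (β := ze p a)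
    (by simp [h1.pow_eq_one])
  exact ⟨ζ, IsPrimitiveRoot.of_map_of_injective (f := τ) (by rw [h3]; exact h1) τ.injective, h3⟩

end

section Hs

variable {K : Type*} [Field K] {Ka : Type*} [Field Ka] [Algebra K Ka] [IsAlgClosure K Ka]
  {s : K →+* ℂ} {D P Q r : K[X]} {m : ℕ} (γ : Fin m → Lp (D.map s)) (τ : Ka →+* ℂ)

omit [IsAlgClosure K Ka] in
theorem tau_aeval (hτ : τ.comp (algebraMap K Ka) = s) (P : K[X]) (b : Ka) :
    τ (aeval b P) = (P.map s).eval (τ b) := by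
  rw [aeval_def, hom_eval₂, hτ, eval_map]

/-- `2 P(b) = ζ + 1/ζ` for a primitive `p`-th root of unity `ζ`. -/
def SpP (P : K[X]) (p : ℕ) (ζ b : Ka) : Prop := IsPrimitiveRoot ζ p ∧ 2 * aeval b P = ζ + ζ⁻¹

/-- The combinations of the regulator integrals with the same values at the special points that
are conjugate over `E`. -/
def Hs (P Q : K[X]) (E : IntermediateField K Ka) (p₀ : ℕ) : Submodule ℝ (Fin m → ℝ) where
  carrier := {c | ∀ p : ℕ, p.Prime → p₀ ≤ p → ∀ ζ b : Ka, SpP P p ζ b → ∀ g : Ka ≃ₐ[E] Ka,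
    (∀ l, (γ l).Off (τ b)) → (∀ l, (γ l).Off (τ (g b))) →
      ∑ l, c l * ((γ l).rho (P.map s) (Q.map s) (τ b) -
        (γ l).rho (P.map s) (Q.map s) (τ (g b))) = 0}
  zero_mem' := by
    intro p _ _ ζ b _ g _ _
    simp
  add_mem' := by
    intro c c' h h' p hp hle ζ b hb g h1 h2
    have h3 := h p hp hle ζ b hb g h1 h2
    have h4 := h' p hp hle ζ b hb g h1 h2
    rw [← add_zero (0 : ℝ)]
    nth_rewrite 1 [← h3]
    rw [← h4, ← Finset.sum_add_distrib]
    refine Finset.sum_congr rfl fun l _ => ?_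
    rw [Pi.add_apply]
    ring
  smul_mem' := by
    intro a c h p hp hle ζ b hb g h1 h2
    have h3 := h p hp hle ζ b hb g h1 h2
    rw [← mul_zero a, ← h3, Finset.mul_sum]
    refine Finset.sum_congr rfl fun l _ => ?_
    rw [Pi.smul_apply, smul_eq_mul]
    ring

omit [IsAlgClosure K Ka] in
theorem SpP.conj {P : K[X]} {p : ℕ} {ζ b : Ka} (h : SpP P p ζ b) {E : IntermediateField K Ka}
    (g : Ka ≃ₐ[E] Ka) : SpP P p (g ζ) (g b) := by
  refine ⟨h.1.map_of_injective g.injective, ?_⟩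
  have h1 := congrArg g h.2
  rw [map_mul, map_add, map_inv₀, map_ofNat] at h1
  rw [← h1]
  congr 1
  have h2 : (g : Ka ≃ₐ[E] Ka) (aeval b P) = aeval (g b) P := by
    have h3 : (g.restrictScalars K) (aeval b P) = aeval ((g.restrictScalars K) b) P :=
      (aeval_algHom_apply (g.restrictScalars K).toAlgHom b P).symm
    exact h3
  exact h2.symm

theorem SpP.tau_eval {P : K[X]} {p a : ℕ} {ζ b : Ka} (h : SpP P p ζ b)
    (hτ : τ.comp (algebraMap K Ka) = s) (hζ : τ ζ = ze p a) :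
    (P.map s).eval (τ b) = (cs p a : ℝ) := by
  have h1 := congrArg τ h.2
  rw [map_mul, map_add, map_inv₀, map_ofNat, hζ, tau_aeval τ hτ, ← two_cs] at h1
  exact mul_left_cancel₀ two_ne_zero h1

theorem lift_special [CharZero K] (hτ : τ.comp (algebraMap K Ka) = s) (hP : 0 < P.natDegree)
    {p a : ℕ} {ζ : Ka} (hζ : IsPrimitiveRoot ζ p) (hζτ : τ ζ = ze p a) {β : ℂ}
    (hβ : (P.map s).eval β = (cs p a : ℝ)) : ∃ b : Ka, SpP P p ζ b ∧ τ b = β := by
  have hcl : IsAlgClosed Ka := IsAlgClosure.isAlgClosed K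
  have hch : CharZero Ka := charZero_of_injective_algebraMap (algebraMap K Ka).injective
  set q : Ka[X] := C 2 * P.map (algebraMap K Ka) - C (ζ + ζ⁻¹) with hq
  have hdeg : 0 < q.natDegree := by
    rw [hq, natDegree_sub_C, natDegree_C_mul two_ne_zero, natDegree_map]
    exact hP
  have hq0 : q ≠ 0 := by
    rintro h0
    rw [h0, natDegree_zero] at hdeg
    exact lt_irrefl _ hdeg
  obtain ⟨b, hb, hbβ⟩ := lift_root τ hq0 (β := β) (by
    rw [hq, Polynomial.map_sub, Polynomial.map_mul, map_C, map_C, Polynomial.map_map, hτ, eval_sub,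
      eval_mul, eval_C, eval_C, hβ, map_add, map_inv₀, hζτ, map_ofNat, two_cs, sub_self])
  refine ⟨b, ⟨hζ, ?_⟩, hbβ⟩
  rw [hq, eval_sub, eval_mul, eval_C, eval_C, eval_map, ← aeval_def] at hb
  exact sub_eq_zero.1 hb

theorem few_of_mem {K : Type*} [Field K] [NumberField K] {Ka : Type*} [Field Ka] [Algebra K Ka]
    [IsAlgClosure K Ka] {s : K →+* ℂ} {D P Q : K[X]} {m : ℕ} (γ : Fin m → Lp (D.map s))
    (τ : Ka →+* ℂ) (hτ : τ.comp (algebraMap K Ka) = s) (hP : 0 < P.natDegree)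
    (hT : (TT γ (P.map s)).Nonempty) (E : IntermediateField K Ka) [FiniteDimensional K E] (p₀ : ℕ)
    {c : Fin m → ℝ} (hc : c ∈ Hs γ τ P Q E p₀) : FewValues γ (P.map s) (Q.map s) c := by
  classical
  have hcl : IsAlgClosed Ka := IsAlgClosure.isAlgClosed K
  obtain ⟨t, ht⟩ := hT
  obtain ⟨p₁, hp₁⟩ := exists_cs_mem ht.1 ((isOpen_TT γ (P.map s)).mem_nhds ht)
  obtain ⟨p₂, hp₂⟩ := exists_conj K E
  refine ⟨(P.map s).natDegree, max p₀ (max p₁ p₂), fun p hp hle => ?_⟩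
  obtain ⟨hle0, hle1, hle2⟩ : p₀ ≤ p ∧ p₁ ≤ p ∧ p₂ ≤ p := by
    rw [max_le_iff, max_le_iff] at hle
    exact hle
  obtain ⟨a₀, ha0, hap0, hTT⟩ := hp₁ p hle1
  obtain ⟨ζ₀, hζ₀, hζ₀τ⟩ := lift_ze τ hp ha0 hap0
  refine ⟨((P.map s - C ((cs p a₀ : ℝ) : ℂ)).roots.toFinset).image
    (fun β => ∑ l, c l * (γ l).rho (P.map s) (Q.map s) β), ?_, ?_⟩
  · refine Finset.card_image_le.trans ((Multiset.toFinset_card_le _).trans ?_)
    refine (card_roots' _).trans ?_
    rw [natDegree_sub_C]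
  · intro a ha hap β hoff hβ
    obtain ⟨ζ, hζ, hζτ⟩ := lift_ze τ hp ha hap
    obtain ⟨b, hb, hbβ⟩ := lift_special τ hτ hP hζ hζτ hβ
    obtain ⟨g, hg⟩ := hp₂ p hp hle2 ζ ζ₀ hζ hζ₀
    have h1 := hb.conj g
    rw [hg] at h1
    have h2 : (P.map s).eval (τ (g b)) = (cs p a₀ : ℝ) := h1.tau_eval τ hτ hζ₀τ
    have h3 : ∀ l, (γ l).Off (τ (g b)) := hTT.2 _ h2
    have h4 := hc p hp hle0 ζ b hb g (by rw [hbβ]; exact hoff) h3
    rw [Finset.mem_image]
    refine ⟨τ (g b), ?_, ?_⟩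
    · rw [Multiset.mem_toFinset, mem_roots, IsRoot.def, eval_sub, eval_C, h2, sub_self]
      intro h0
      have h5 : (P.map s - C ((cs p a₀ : ℝ) : ℂ)).natDegree = P.natDegree := by
        rw [natDegree_sub_C, natDegree_map]
      rw [h0, natDegree_zero] at h5
      omega
    · rw [hbβ] at h4
      rw [← sub_eq_zero, ← neg_eq_zero, ← h4, ← Finset.sum_sub_distrib, ← Finset.sum_neg_distrib]
      refine Finset.sum_congr rfl fun l _ => ?_
      ring

end Hs

end Pool.Agent.R387.RS
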