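import Pool.Agent.R387.RS.Fld
set_option autoImplicit false

/-!
The inductive construction of special points with independent regulators at many places.
-/

namespace Pool.Agent.R387.RS

open Polynomial Module

open Pool.Agent.Y94.R

universe u

/-- The data: a solution of the Pell equation over a number field, finitely many embeddings, and
loops in the complex curves. -/
structure Dt (K : Type u) [Field K] where
  /-- the polynomials -/
  D : K[X]
  P : K[X]
  Q : K[X]
  r : K[X]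
  /-- the number of the embeddings -/
  N : ℕ
  /-- the embeddings -/
  s : Fin N → K →+* ℂ
  /-- the numbers of the loops -/
  m : Fin N → ℕ
  /-- the loops -/
  γ : ∀ i, Fin (m i) → Lp (D.map (s i))
  /-- the ranks -/
  n : Fin N → ℕ

namespace Dt

variable {K : Type u} [Field K] (A : Dt K)

/-- the indices of the loops -/
abbrev Ix : Type := Σ i, Fin (A.m i)

open scoped Classical in
/-- The hypotheses. -/
structure Ok : Prop where
  sq : Squarefree A.D
  pell : A.P ^ 2 - A.D * A.Q ^ 2 = 1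
  der : derivative A.P = A.r * A.Q
  deg : 0 < A.P.natDegree
  off : ∀ i l β, (A.r.map (A.s i)).eval β = 0 → (A.γ i l).Off β
  tt : ∀ i, (TT (A.γ i) (A.P.map (A.s i))).Nonempty
  ind : ∀ i, ∀ c : Fin (A.m i) → ℝ, c ≠ 0 →
    ∃ j < (A.r.map (A.s i)).natDegree, Ic (A.γ i) c (X ^ j) ≠ 0
  rank : ∀ i, A.n i + Multiset.card ((A.r.map (A.s i)).roots.filter (Bad (A.P.map (A.s i)))) =
    A.m i

theorem Ok.Pell {A : Dt K} (h : A.Ok) (i : Fin A.N) :
    Pell (A.D.map (A.s i)) (A.P.map (A.s i)) (A.Q.map (A.s i)) (A.r.map (A.s i)) where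
  eq := by
    have h1 := congrArg (Polynomial.map (A.s i)) h.pell
    simpa using h1
  der := by
    have h1 := congrArg (Polynomial.map (A.s i)) h.der
    rwa [Polynomial.map_mul, ← Polynomial.derivative_map] at h1
  deg := by
    rw [natDegree_map]
    exact h.deg

theorem Ok.sqMap [CharZero K] {A : Dt K} (h : A.Ok) (i : Fin A.N) :
    Squarefree (A.D.map (A.s i)) := by
  have h1 : A.D.Separable := PerfectField.separable_iff_squarefree.2 h.sq
  exact (h1.map (f := A.s i)).squarefree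

variable {Ka : Type u} [Field Ka] [Algebra K Ka]

/-- The vector of the regulator integrals. -/
noncomputable def vec (τ : Fin A.N → Ka →+* ℂ) (b : Ka) : A.Ix → ℝ := fun x =>
  (A.γ x.1 x.2).rho (A.P.map (A.s x.1)) (A.Q.map (A.s x.1)) (τ x.1 b)

/-- The state of the construction. -/
structure St (R : ℕ) (τ : Fin A.N → Ka →+* ℂ) (b : Fin (R + 1) → Ka) : Prop where
  comp : ∀ i, (τ i).comp (algebraMap K Ka) = A.s i
  sp : ∀ j, ∃ (p : ℕ) (ζ : Ka), p.Prime ∧ SpP A.P p ζ (b j)
  off : ∀ i l j, (A.γ i l).Off (τ i (b j))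
  li : LinearIndependent ℝ fun j : Fin R => A.vec τ (b j.succ) - A.vec τ (b 0)

theorem exists_tau [IsAlgClosure K Ka] (s : K →+* ℂ) :
    ∃ τ : Ka →+* ℂ, τ.comp (algebraMap K Ka) = s := by
  have halg : Algebra.IsAlgebraic K Ka := IsAlgClosure.isAlgebraic
  let _ : Algebra K ℂ := s.toAlgebra
  refine ⟨(IsAlgClosed.lift (R := K) (S := Ka) (M := ℂ)).toRingHom, ?_⟩
  ext x
  exact (IsAlgClosed.lift (R := K) (S := Ka) (M := ℂ)).commutes x

variable [NumberField K] [IsAlgClosure K Ka] {A}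

/-- For all large primes there are conjugates of special points that are not on the loops. -/
theorem exists_good (h : A.Ok) (E : IntermediateField K Ka) [FiniteDimensional K E] :
    ∃ p₀ : ℕ, ∀ p : ℕ, p.Prime → p₀ ≤ p → ∀ (i : Fin A.N) (τ : Ka →+* ℂ),
      τ.comp (algebraMap K Ka) = A.s i → ∀ ζ b : Ka, SpP A.P p ζ b →
        ∃ g : Ka ≃ₐ[E] Ka, ∀ l, (A.γ i l).Off (τ (g b)) := by
  have hcl : IsAlgClosed Ka := IsAlgClosure.isAlgClosed K
  choose t ht using h.tt
  choose p₁ hp₁ using fun i => exists_cs_mem (ht i).1 ((isOpen_TT (A.γ i) _).mem_nhds (ht i))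
  obtain ⟨p₂, hp₂⟩ := exists_conj K E
  refine ⟨max (Finset.univ.sup p₁) p₂, fun p hp hle i τ hτ ζ b hb => ?_⟩
  obtain ⟨a, ha0, hap, hT⟩ := hp₁ i p
    ((Finset.le_sup (f := p₁) (Finset.mem_univ i)).trans ((le_max_left _ _).trans hle))
  obtain ⟨ζ', hζ', hζτ⟩ := lift_ze τ hp ha0 hap
  obtain ⟨g, hg⟩ := hp₂ p hp ((le_max_right _ _).trans hle) ζ ζ' hb.1 hζ'
  have h1 := hb.conj g
  rw [hg] at h1
  exact ⟨g, hT.2 _ (h1.tau_eval τ hτ hζτ)⟩

/-- the modified embeddings -/
noncomputable def tw {E : IntermediateField K Ka} (τ : Fin A.N → Ka →+* ℂ)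
    (G : Fin A.N → (Ka ≃ₐ[E] Ka)) (i : Fin A.N) : Ka →+* ℂ :=
  (τ i).comp (G i : Ka →+* Ka)

omit [NumberField K] [IsAlgClosure K Ka] in
theorem tw_apply {E : IntermediateField K Ka} (τ : Fin A.N → Ka →+* ℂ)
    (G : Fin A.N → (Ka ≃ₐ[E] Ka)) (i : Fin A.N) (x : Ka) : tw (A := A) τ G i x = τ i (G i x) := rfl

theorem tw_mem {E : IntermediateField K Ka} (τ : Fin A.N → Ka →+* ℂ)
    (G : Fin A.N → (Ka ≃ₐ[E] Ka)) (i : Fin A.N) {x : Ka} (hx : x ∈ E) :
    tw (A := A) τ G i x = τ i x := by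
  rw [tw_apply, show G i x = x from (G i).commutes ⟨x, hx⟩]

theorem tw_comp {E : IntermediateField K Ka} {τ : Fin A.N → Ka →+* ℂ}
    (hτ : ∀ i, (τ i).comp (algebraMap K Ka) = A.s i) (G : Fin A.N → (Ka ≃ₐ[E] Ka)) (i : Fin A.N) :
    (tw (A := A) τ G i).comp (algebraMap K Ka) = A.s i := by
  rw [← hτ i]
  ext x
  rw [RingHom.comp_apply, RingHom.comp_apply]
  exact tw_mem τ G i (E.algebraMap_mem x)

theorem exists_St0 (h : A.Ok) : ∃ (τ : Fin A.N → Ka →+* ℂ) (b : Fin 1 → Ka), A.St 0 τ b := by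
  have hcl : IsAlgClosed Ka := IsAlgClosure.isAlgClosed K
  have hch : CharZero Ka := charZero_of_injective_algebraMap (algebraMap K Ka).injective
  have hch' : CharZero K := inferInstance
  obtain ⟨p₀, hp₀⟩ := exists_good h (⊥ : IntermediateField K Ka)
  obtain ⟨p, hle, hp⟩ := Nat.exists_infinite_primes p₀
  have hNZ : NeZero (p : Ka) := ⟨by exact_mod_cast hp.ne_zero⟩
  obtain ⟨ζ, hζ⟩ := IsAlgClosed.exists_root (cyclotomic p Ka) (by
    rw [degree_cyclotomic]
    have := Nat.totient_pos.2 hp.pos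
    exact_mod_cast this.ne')
  rw [isRoot_cyclotomic_iff] at hζ
  obtain ⟨b, hb⟩ := IsAlgClosed.exists_root
    (C 2 * A.P.map (algebraMap K Ka) - C (ζ + ζ⁻¹) : Polynomial Ka) (by
      have hdeg : 0 < (C 2 * A.P.map (algebraMap K Ka) - C (ζ + ζ⁻¹) : Polynomial Ka).natDegree := by
        rw [natDegree_sub_C, natDegree_C_mul two_ne_zero, natDegree_map]
        exact h.deg
      exact (natDegree_pos_iff_degree_pos.1 hdeg).ne')
  have hbs : SpP A.P p ζ b := by
    refine ⟨hζ, ?_⟩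
    rw [IsRoot.def, eval_sub, eval_mul, eval_C, eval_C, eval_map, ← aeval_def] at hb
    exact sub_eq_zero.1 hb
  choose τ hτ using fun i => exists_tau (Ka := Ka) (A.s i)
  choose G hG using fun i => hp₀ p hp hle i (τ i) (hτ i) ζ b hbs
  refine ⟨tw (A := A) τ G, fun _ => b, tw_comp hτ G, fun _ => ⟨p, ζ, hp, hbs⟩, fun i l _ => ?_, ?_⟩
  · exact hG i l
  · exact linearIndependent_empty_type

/-- the space of the bad functionals -/
def HH (E : IntermediateField K Ka) (τ : Fin A.N → Ka →+* ℂ) (p₀ : ℕ) : Submodule ℝ (A.Ix → ℝ) where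
  carrier := {c | ∀ i, (fun l => c ⟨i, l⟩) ∈ Hs (A.γ i) (τ i) A.P A.Q E p₀}
  zero_mem' _ := Submodule.zero_mem _
  add_mem' h h' i := Submodule.add_mem _ (h i) (h' i)
  smul_mem' a _ h i := Submodule.smul_mem _ a (h i)

open scoped Classical in
theorem finrank_HH (h : A.Ok) (E : IntermediateField K Ka) [FiniteDimensional K E]
    {τ : Fin A.N → Ka →+* ℂ} (hτ : ∀ i, (τ i).comp (algebraMap K Ka) = A.s i) (p₀ : ℕ) :
    finrank ℝ (HH E τ p₀) ≤
      ∑ i, Multiset.card ((A.r.map (A.s i)).roots.filter (Bad (A.P.map (A.s i)))) := by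
  let Φ : HH E τ p₀ →ₗ[ℝ] (∀ i, Hs (A.γ i) (τ i) A.P A.Q E p₀) :=
    { toFun := fun c i => ⟨fun l => c.1 ⟨i, l⟩, c.2 i⟩
      map_add' := fun _ _ => rfl
      map_smul' := fun _ _ => rfl }
  have hΦ : Function.Injective Φ := by
    intro c c' hcc
    refine Subtype.ext (funext fun x => ?_)
    have h1 := congrArg Subtype.val (congrFun hcc x.1)
    exact congrFun h1 x.2
  refine (LinearMap.finrank_le_finrank_of_injective hΦ).trans ?_
  rw [Module.finrank_pi_fintype]
  refine Finset.sum_le_sum fun i _ => ?_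
  exact finrank_le (A.γ i) (h.sqMap i) (h.Pell i) (h.off i) (h.tt i)
    (fun c hc => few_of_mem (A.γ i) (τ i) (hτ i) h.deg (h.tt i) E p₀ hc) (h.ind i)

/-- the functionals that vanish at given vectors -/
def perp {α : Type*} [Fintype α] {R : ℕ} (w : Fin R → α → ℝ) : (α → ℝ) →ₗ[ℝ] (Fin R → ℝ) where
  toFun c j := ∑ x, c x * w j x
  map_add' c c' := by
    funext j
    simp only [Pi.add_apply, add_mul, Finset.sum_add_distrib]
  map_smul' a c := by
    funext j
    simp only [Pi.smul_apply, smul_eq_mul, Finset.mul_sum, mul_assoc, RingHom.id_apply]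

theorem step (h : A.Ok) {R : ℕ} (hR : R < ∑ i, A.n i) {τ : Fin A.N → Ka →+* ℂ}
    {b : Fin (R + 1) → Ka} (hS : A.St R τ b) :
    ∃ (τ' : Fin A.N → Ka →+* ℂ) (b' : Fin (R + 2) → Ka), A.St (R + 1) τ' b' := by
  classical
  have halg : Algebra.IsAlgebraic K Ka := IsAlgClosure.isAlgebraic
  set E : IntermediateField K Ka := IntermediateField.adjoin K (Set.range b) with hE
  have hfin : FiniteDimensional K E := by
    rw [hE]
    have hf : Finite (Set.range b) := Set.finite_range b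
    exact IntermediateField.finiteDimensional_adjoin fun x _ => Algebra.IsIntegral.isIntegral x
  have hbE : ∀ j, b j ∈ E := fun j => IntermediateField.subset_adjoin K _ ⟨j, rfl⟩
  obtain ⟨p₀, hp₀⟩ := exists_good h E
  set w : Fin R → A.Ix → ℝ := fun j => A.vec τ (b j.succ) - A.vec τ (b 0) with hw
  obtain ⟨c, hcw, hcH⟩ : ∃ c, c ∈ LinearMap.ker (perp w) ∧ c ∉ HH E τ p₀ := by
    by_contra hcon
    push Not at hcon
    have h1 : LinearMap.ker (perp w) ≤ HH E τ p₀ := fun c hc => hcon c hc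
    have h2 := (Submodule.finrank_mono h1).trans (finrank_HH h E hS.comp p₀)
    have h3 := LinearMap.finrank_range_add_finrank_ker (perp w)
    have h4 : finrank ℝ (LinearMap.range (perp w)) ≤ R := by
      refine (Submodule.finrank_le _).trans ?_
      rw [finrank_fin_fun]
    have h5 : finrank ℝ (A.Ix → ℝ) = ∑ i, A.m i := by
      rw [Module.finrank_fintype_fun_eq_card, Fintype.card_sigma]
      simp
    have h6 : ∑ i, A.n i + ∑ i, Multiset.card ((A.r.map (A.s i)).roots.filter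
        (Bad (A.P.map (A.s i)))) = ∑ i, A.m i := by
      rw [← Finset.sum_add_distrib]
      exact Finset.sum_congr rfl fun i _ => h.rank i
    rw [h5] at h3
    omega
  obtain ⟨i₀, hi₀⟩ : ∃ i, (fun l => c ⟨i, l⟩) ∉ Hs (A.γ i) (τ i) A.P A.Q E p₀ := by
    by_contra hcon
    push Not at hcon
    exact hcH hcon
  obtain ⟨p, hp, hle, ζ, b', hb', g, ho1, ho2, hne⟩ : ∃ p : ℕ, p.Prime ∧ p₀ ≤ p ∧ ∃ ζ b' : Ka,
      SpP A.P p ζ b' ∧ ∃ g : Ka ≃ₐ[E] Ka, (∀ l, (A.γ i₀ l).Off (τ i₀ b')) ∧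
        (∀ l, (A.γ i₀ l).Off (τ i₀ (g b'))) ∧
        ∑ l, c ⟨i₀, l⟩ * ((A.γ i₀ l).rho (A.P.map (A.s i₀)) (A.Q.map (A.s i₀)) (τ i₀ b') -
          (A.γ i₀ l).rho (A.P.map (A.s i₀)) (A.Q.map (A.s i₀)) (τ i₀ (g b'))) ≠ 0 := by
    by_contra hcon
    push Not at hcon
    exact hi₀ fun p hp hle ζ b' hb' g h1 h2 => hcon p hp hle ζ b' hb' g h1 h2
  choose G₀ hG₀ using fun i => hp₀ p hp hle i (τ i) (hS.comp i) ζ b' hb'
  -- the vectors of the new point
  have hvec : ∀ G : Fin A.N → (Ka ≃ₐ[E] Ka), ∀ j, A.vec (tw (A := A) τ G) (b j) = A.vec τ (b j) := by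
    intro G j
    funext x
    unfold vec
    rw [tw_mem τ G x.1 (hbE j)]
  set G1 : Fin A.N → (Ka ≃ₐ[E] Ka) := Function.update G₀ i₀ AlgEquiv.refl with hG1
  set G2 : Fin A.N → (Ka ≃ₐ[E] Ka) := Function.update G₀ i₀ g with hG2
  have hdiff : ∑ x, c x * (A.vec (tw (A := A) τ G1) b' x - A.vec (tw (A := A) τ G2) b' x) ≠ 0 := by
    rw [Fintype.sum_sigma, Finset.sum_eq_single i₀]
    · convert hne using 3 with l
      unfold vec
      rw [tw_apply, tw_apply, hG1, hG2, Function.update_self, Function.update_self]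
      rfl
    · intro i _ hi
      refine Finset.sum_eq_zero fun l _ => ?_
      unfold vec
      rw [tw_apply, tw_apply, hG1, hG2, Function.update_of_ne hi, Function.update_of_ne hi,
        sub_self, mul_zero]
    · intro h1
      exact absurd (Finset.mem_univ _) h1
  obtain ⟨G, hGoff, hGne⟩ : ∃ G : Fin A.N → (Ka ≃ₐ[E] Ka),
      (∀ i l, (A.γ i l).Off (tw (A := A) τ G i b')) ∧
      ∑ x, c x * (A.vec (tw (A := A) τ G) b' x - A.vec τ (b 0) x) ≠ 0 := by
    have ho : ∀ g' : Ka ≃ₐ[E] Ka, (∀ l, (A.γ i₀ l).Off (τ i₀ (g' b'))) →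
        ∀ i l, (A.γ i l).Off (tw (A := A) τ (Function.update G₀ i₀ g') i b') := by
      intro g' hg' i l
      rw [tw_apply]
      rcases eq_or_ne i i₀ with rfl | hi
      · rw [Function.update_self]
        exact hg' l
      · rw [Function.update_of_ne hi]
        exact hG₀ i l
    by_cases h1 : ∑ x, c x * (A.vec (tw (A := A) τ G1) b' x - A.vec τ (b 0) x) = 0
    · refine ⟨G2, ho g ho2, fun h2 => hdiff ?_⟩
      rw [← sub_self (0 : ℝ)]
      nth_rewrite 1 [← h1]
      rw [← h2, ← Finset.sum_sub_distrib]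
      refine Finset.sum_congr rfl fun x _ => ?_
      ring
    · exact ⟨G1, ho AlgEquiv.refl ho1, h1⟩
  refine ⟨tw (A := A) τ G, Fin.snoc b b', tw_comp hS.comp G, ?_, ?_, ?_⟩
  · intro j
    refine Fin.lastCases ?_ (fun j => ?_) j
    · rw [Fin.snoc_last]
      exact ⟨p, ζ, hp, hb'⟩
    · rw [Fin.snoc_castSucc]
      exact hS.sp j
  · intro i l j
    refine Fin.lastCases ?_ (fun j => ?_) j
    · rw [Fin.snoc_last]
      exact hGoff i l
    · rw [Fin.snoc_castSucc, tw_mem τ G i (hbE j)]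
      exact hS.off i l j
  · have h0 : (Fin.snoc b b' : Fin (R + 2) → Ka) 0 = b 0 := by
      rw [← Fin.castSucc_zero, Fin.snoc_castSucc]
    have h1 : (fun j : Fin (R + 1) => A.vec (tw (A := A) τ G) ((Fin.snoc b b' : Fin (R + 2) → Ka) j.succ) -
        A.vec (tw (A := A) τ G) ((Fin.snoc b b' : Fin (R + 2) → Ka) 0)) =
        (Fin.snoc w (A.vec (tw (A := A) τ G) b' - A.vec τ (b 0)) : Fin (R + 1) → A.Ix → ℝ) := by
      funext j
      rw [h0, hvec]
      refine Fin.lastCases ?_ (fun j => ?_) j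
      · rw [Fin.snoc_last, Fin.succ_last, Fin.snoc_last]
      · rw [Fin.snoc_castSucc, Fin.succ_castSucc, Fin.snoc_castSucc, hvec]
    rw [h1, linearIndependent_finSnoc]
    refine ⟨hS.li, fun hmem => hGne ?_⟩
    have h2 : ∀ v ∈ Submodule.span ℝ (Set.range w), ∑ x, c x * v x = 0 := by
      intro v hv
      induction hv using Submodule.span_induction with
      | mem v hv =>
        obtain ⟨j, rfl⟩ := hv
        exact congrFun (LinearMap.mem_ker.1 hcw) j
      | zero => simp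
      | add u v _ _ hu hv =>
        simp only [Pi.add_apply, mul_add, Finset.sum_add_distrib, hu, hv, add_zero]
      | smul a v _ hv =>
        have h3 : ∑ x, c x * (a • v) x = a * ∑ x, c x * v x := by
          rw [Finset.mul_sum]
          refine Finset.sum_congr rfl fun x _ => ?_
          rw [Pi.smul_apply, smul_eq_mul]
          ring
        rw [h3, hv, mul_zero]
    exact h2 _ hmem

/-- The result of the construction. -/
theorem exists_St (h : A.Ok) : ∀ R : ℕ, R ≤ ∑ i, A.n i →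
    ∃ (τ : Fin A.N → Ka →+* ℂ) (b : Fin (R + 1) → Ka), A.St R τ b := by
  intro R
  induction R with
  | zero =>
    intro _
    exact exists_St0 h
  | succ R ih =>
    intro hR
    obtain ⟨τ, b, hS⟩ := ih (by omega)
    exact step h (by omega) hS

end Dt

end Pool.Agent.R387.RS
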